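import Pool.Agent.LUB.Stmts
import Pool.Agent.Helper65_Leo.Kolchin

set_option autoImplicit false

namespace Pool.Agent.LUB.H90

open Polynomial

section

variable {Ω : Type} [Field Ω]

/-! ### logarithmic derivatives -/

theorem ld_mul (D : Derivation ℤ Ω Ω) {x y : Ω} (hx : x ≠ 0) (hy : y ≠ 0) :
    D (x * y) / (x * y) = D x / x + D y / y := by
  rw [Derivation.leibniz, smul_eq_mul, smul_eq_mul]
  field_simp
  ring

theorem ld_one (D : Derivation ℤ Ω Ω) : D (1 : Ω) / 1 = 0 := by
  rw [Derivation.map_one_eq_zero, zero_div]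

theorem ld_inv (D : Derivation ℤ Ω Ω) {x : Ω} (hx : x ≠ 0) :
    D x⁻¹ / x⁻¹ = -(D x / x) := by
  have h := ld_mul D hx (inv_ne_zero hx)
  rw [mul_inv_cancel₀ hx, ld_one] at h
  exact (neg_eq_of_add_eq_zero_right h.symm).symm

theorem ld_pow (D : Derivation ℤ Ω Ω) {x : Ω} (hx : x ≠ 0) (n : ℕ) :
    D (x ^ n) / x ^ n = n * (D x / x) := by
  induction n with
  | zero => simp
  | succ n ih =>
    rw [pow_succ, ld_mul D (pow_ne_zero n hx) hx, ih]
    push_cast; ring

theorem ld_zpow (D : Derivation ℤ Ω Ω) {x : Ω} (hx : x ≠ 0) (n : ℤ) :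
    D (x ^ n) / x ^ n = n * (D x / x) := by
  obtain ⟨k, rfl | rfl⟩ := n.eq_nat_or_neg
  · rw [zpow_natCast, ld_pow D hx, Int.cast_natCast]
  · rw [zpow_neg, zpow_natCast, ld_inv D (pow_ne_zero k hx), ld_pow D hx]
    push_cast; ring

theorem ld_prod (D : Derivation ℤ Ω Ω) {κ : Type} (s : Finset κ) (f : κ → Ω)
    (hf : ∀ i, f i ≠ 0) : D (∏ i ∈ s, f i) / ∏ i ∈ s, f i = ∑ i ∈ s, D (f i) / f i := by
  classical
  induction s using Finset.induction_on with
  | empty => simp
  | insert a s ha ih =>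
    rw [Finset.prod_insert ha, Finset.sum_insert ha,
      ld_mul D (hf a) (Finset.prod_ne_zero_iff.2 fun i _ => hf i), ih]

/-! ### constants and the algebraic closure -/

/-- the field of constants -/
def Cst (D : Derivation ℤ Ω Ω) : Subfield Ω where
  carrier := {x | D x = 0}
  mul_mem' := by
    intro a b ha hb
    have ha' : D a = 0 := ha
    have hb' : D b = 0 := hb
    show D (a * b) = 0
    rw [Derivation.leibniz, ha', hb']; simp
  one_mem' := Derivation.map_one_eq_zero D
  add_mem' := by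
    intro a b ha hb
    have ha' : D a = 0 := ha
    have hb' : D b = 0 := hb
    show D (a + b) = 0
    rw [map_add, ha', hb', add_zero]
  zero_mem' := map_zero D
  neg_mem' := by
    intro a ha
    have ha' : D a = 0 := ha
    show D (-a) = 0
    rw [map_neg, ha', neg_zero]
  inv_mem' := by
    intro a ha
    have ha' : D a = 0 := ha
    show D a⁻¹ = 0
    rw [Derivation.leibniz_inv, ha', smul_zero]

theorem mem_Cst {D : Derivation ℤ Ω Ω} {x : Ω} : x ∈ Cst D ↔ D x = 0 := Iff.rfl

/-- the algebraic elements -/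
noncomputable def Alg (D : Derivation ℤ Ω Ω) (T : Ω) : Subfield Ω :=
  (algebraicClosure (Fld D T) Ω).toSubfield

theorem mem_Alg {D : Derivation ℤ Ω Ω} {T x : Ω} : x ∈ Alg D T ↔ IsAlgebraic (Fld D T) x :=
  mem_algebraicClosure_iff

theorem Fld_le_Alg (D : Derivation ℤ Ω Ω) (T : Ω) : Fld D T ≤ Alg D T := by
  intro x hx
  exact mem_Alg.2 (isAlgebraic_algebraMap (⟨x, hx⟩ : Fld D T))

theorem Cst_le_Fld (D : Derivation ℤ Ω Ω) (T : Ω) : Cst D ≤ Fld D T := by
  intro x hx
  exact Subfield.subset_closure (Or.inl hx)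

theorem Cst_le_Alg (D : Derivation ℤ Ω Ω) (T : Ω) : Cst D ≤ Alg D T :=
  (Cst_le_Fld D T).trans (Fld_le_Alg D T)

/-- the derivation with `T ↦ 1` -/
noncomputable def der (D : Derivation ℤ Ω Ω) (T : Ω) : Derivation (Cst D) Ω Ω :=
  Derivation.mk'
    { toFun := fun x => (D T)⁻¹ * D x
      map_add' := fun x y => by rw [map_add, mul_add]
      map_smul' := fun c x => by
        have hc : D (c : Ω) = 0 := c.2
        rw [Algebra.smul_def, Algebra.smul_def]
        show (D T)⁻¹ * D ((c : Ω) * x) = (c : Ω) * ((D T)⁻¹ * D x)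
        rw [Derivation.leibniz, hc, smul_zero, add_zero, smul_eq_mul]; ring }
    (fun a b => by
      show (D T)⁻¹ * D (a * b) = a • ((D T)⁻¹ * D b) + b • ((D T)⁻¹ * D a)
      rw [Derivation.leibniz, smul_eq_mul, smul_eq_mul, smul_eq_mul, smul_eq_mul]; ring)

theorem der_apply (D : Derivation ℤ Ω Ω) (T x : Ω) : der D T x = (D T)⁻¹ * D x := rfl

theorem der_Fld (D : Derivation ℤ Ω Ω) (T : Ω) (hT : D T ≠ 0) :
    ∀ x ∈ Fld D T, der D T x ∈ Fld D T := by
  intro x hx
  refine Subfield.closure_induction (p := fun x _ => der D T x ∈ Fld D T) ?_ ?_ ?_ ?_ ?_ ?_ hx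
  · rintro x (hx | hx)
    · have hx' : D x = 0 := hx
      rw [der_apply, hx', mul_zero]; exact (Fld D T).zero_mem
    · rw [Set.mem_singleton_iff] at hx
      rw [hx, der_apply, inv_mul_cancel₀ hT]; exact (Fld D T).one_mem
  · rw [Derivation.map_one_eq_zero]; exact (Fld D T).zero_mem
  · intro x y _ _ hx hy
    rw [map_add]; exact (Fld D T).add_mem hx hy
  · intro x _ hx
    rw [map_neg]; exact (Fld D T).neg_mem hx
  · intro x hx0 hx
    rw [Derivation.leibniz_inv, smul_eq_mul]
    exact (Fld D T).mul_mem ((Fld D T).neg_mem ((Fld D T).pow_mem ((Fld D T).inv_mem hx0) 2)) hx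
  · intro x y hx0 hy0 hx hy
    rw [Derivation.leibniz, smul_eq_mul, smul_eq_mul]
    exact (Fld D T).add_mem ((Fld D T).mul_mem hx0 hy) ((Fld D T).mul_mem hy0 hx)

theorem der_poly (D : Derivation ℤ Ω Ω) (T : Ω) (hT : D T ≠ 0) (x : Ω) (hx : x ∈ Alg D T)
    (P : (Fld D T)[X]) :
    der D T (aeval x P) - aeval x (derivative P) * der D T x ∈ Alg D T := by
  induction P using Polynomial.induction_on' with
  | add p q hp hq =>
    have : der D T (aeval x (p + q)) - aeval x (derivative (p + q)) * der D T x =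
        (der D T (aeval x p) - aeval x (derivative p) * der D T x) +
        (der D T (aeval x q) - aeval x (derivative q) * der D T x) := by
      simp only [map_add]; ring
    rw [this]; exact (Alg D T).add_mem hp hq
  | monomial n a =>
    have : der D T (aeval x (monomial n a)) - aeval x (derivative (monomial n a)) * der D T x =
        der D T (a : Ω) * x ^ n := by
      rw [aeval_monomial, derivative_monomial, aeval_monomial, Derivation.leibniz,
        Derivation.leibniz_pow, map_mul, map_natCast]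
      simp only [smul_eq_mul, nsmul_eq_mul]
      have h1 : algebraMap (Fld D T) Ω a = (a : Ω) := rfl
      rw [h1]; ring
    rw [this]
    exact (Alg D T).mul_mem (Fld_le_Alg D T (der_Fld D T hT _ a.2)) ((Alg D T).pow_mem hx n)

theorem der_Alg [CharZero Ω] (D : Derivation ℤ Ω Ω) (T : Ω) (hT : D T ≠ 0) {x : Ω}
    (hx : x ∈ Alg D T) : der D T x ∈ Alg D T := by
  have h1 : IsAlgebraic (Fld D T) x := mem_Alg.1 hx
  have h2 : IsIntegral (Fld D T) x := h1.isIntegral
  have h3 := der_poly D T hT x hx (minpoly (Fld D T) x)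
  rw [minpoly.aeval, map_zero, zero_sub] at h3
  have : CharZero (Fld D T) := inferInstance
  have hsep : (minpoly (Fld D T) x).Separable := (minpoly.irreducible h2).separable
  have h4 : aeval x (derivative (minpoly (Fld D T) x)) ≠ 0 :=
    hsep.aeval_derivative_ne_zero (minpoly.aeval _ _)
  have h5 : aeval x (derivative (minpoly (Fld D T) x)) ∈ Alg D T := by
    rw [aeval_eq_sum_range]
    refine (Alg D T).sum_mem fun i _ => ?_
    rw [Algebra.smul_def]
    exact (Alg D T).mul_mem (Fld_le_Alg D T (SetLike.coe_mem _)) ((Alg D T).pow_mem hx i)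
  have h6 := (Alg D T).mul_mem ((Alg D T).inv_mem h5) ((Alg D T).neg_mem h3)
  rw [neg_neg, ← mul_assoc, inv_mul_cancel₀ h4, one_mul] at h6
  exact h6

/-- the restricted derivation -/
noncomputable def derA [CharZero Ω] (D : Derivation ℤ Ω Ω) (T : Ω) (hT : D T ≠ 0)
    [Algebra (Cst D) (Alg D T)] [IsScalarTower (Cst D) (Alg D T) Ω] :
    Derivation (Cst D) (Alg D T) (Alg D T) :=
  Derivation.mk'
    { toFun := fun x => ⟨der D T x, der_Alg D T hT x.2⟩
      map_add' := fun x y => Subtype.ext (by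
        show der D T ((x : Ω) + y) = der D T x + der D T y
        rw [map_add])
      map_smul' := fun c x => Subtype.ext (by
        have h1 : ∀ y : Alg D T, ((c • y : Alg D T) : Ω) = (c : Ω) * (y : Ω) := by
          intro y
          have h2 := algebraMap_smul (R := Cst D) (A := Alg D T) (M := Ω) c (y : Ω)
          have h3 : ((c • y : Alg D T) : Ω) = algebraMap (Cst D) (Alg D T) c • (y : Ω) := by
            rw [Algebra.smul_def]; rfl
          rw [h3, h2]; rfl
        show der D T ((c • x : Alg D T) : Ω) = ((c • (⟨der D T x, _⟩ : Alg D T) : Alg D T) : Ω)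
        rw [h1, h1]
        have h4 := (der D T).map_smul c (x : Ω)
        rw [Algebra.smul_def, Algebra.smul_def] at h4
        exact h4) }
    (fun a b => Subtype.ext (by
      show der D T ((a : Ω) * b) = (a : Ω) * der D T b + (b : Ω) * der D T a
      rw [Derivation.leibniz, smul_eq_mul, smul_eq_mul]))

end

theorem zpow_mem' {Ω : Type} [Field Ω] {D : Derivation ℤ Ω Ω} {T : Ω} {κ : Type} [Fintype κ]
    {u : κ → Ω} (hu : ∀ k, IsAlgebraic (Fld D T) (u k)) (m : κ → ℤ) :
    ∏ k, u k ^ m k ∈ Alg D T :=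
  (Alg D T).prod_mem fun k _ => (Alg D T).zpow_mem (mem_Alg.2 (hu k)) (m k)

theorem zpow_sum' {Ω : Type} [Field Ω] {x : Ω} (hx : x ≠ 0) {κ : Type} (s : Finset κ)
    (f : κ → ℤ) : x ^ (∑ i ∈ s, f i) = ∏ i ∈ s, x ^ f i := by
  classical
  induction s using Finset.induction_on with
  | empty => simp
  | insert a s ha ih => rw [Finset.sum_insert ha, Finset.prod_insert ha, zpow_add₀ hx, ih]

/-- **AXK.** -/
theorem axk : AxkStmt := by
  intro osc bas dpl Ω _ _ D T hT κ ι _ _ _ u y lam e hu0 hu hy hlam hdet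
  classical
  obtain ⟨q, B, N, hBN, hind⟩ := bas Ω D κ u hu0
  set v : Fin q → Ω := fun l => ∏ k, u k ^ B l k with hv
  have hv0 : ∀ l, v l ≠ 0 := fun l => Finset.prod_ne_zero_iff.2 fun k _ => zpow_ne_zero _ (hu0 k)
  have hvA : ∀ l, v l ∈ Alg D T := fun l => zpow_mem' hu (B l)
  set z : Fin q → Ω := fun l => ∑ k, (B l k : Ω) * y k with hz
  have hcast : ∀ n : ℤ, D ((n : ℤ) : Ω) = 0 := fun n => Derivation.map_intCast D n
  have hDz : ∀ l, D (z l) = D (v l) / v l := by
    intro l
    rw [hz, map_sum, hv, ld_prod D Finset.univ _ (fun k => zpow_ne_zero _ (hu0 k))]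
    refine Finset.sum_congr rfl fun k _ => ?_
    rw [ld_zpow D (hu0 k), Derivation.leibniz, hcast, smul_zero, add_zero, smul_eq_mul, hy]
  -- the constants
  have hκ : ∀ k, D (y k - ∑ l, (N k l : Ω) * z l) = 0 := by
    intro k
    have h1 : D (y k - ∑ l, (N k l : Ω) * z l) = D (u k) / u k - ∑ l, (N k l : Ω) * (D (v l) / v l) := by
      rw [map_sub, map_sum, hy]
      congr 1
      refine Finset.sum_congr rfl fun l _ => ?_
      rw [Derivation.leibniz, hcast, smul_zero, add_zero, smul_eq_mul, hDz]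
    have h2 : D (u k / ∏ l, v l ^ N k l) / (u k / ∏ l, v l ^ N k l)
        = D (u k) / u k - ∑ l, (N k l : Ω) * (D (v l) / v l) := by
      have h3 : (∏ l, v l ^ N k l) ≠ 0 := Finset.prod_ne_zero_iff.2 fun l _ => zpow_ne_zero _ (hv0 l)
      have h4 : u k / ∏ l, v l ^ N k l = u k * (∏ l, v l ^ N k l)⁻¹ := div_eq_mul_inv _ _
      rw [h4, ld_mul D (hu0 k) (inv_ne_zero h3), ld_inv D h3,
        ld_prod D Finset.univ _ (fun l => zpow_ne_zero _ (hv0 l)), ← sub_eq_add_neg]
      congr 1
      refine Finset.sum_congr rfl fun l _ => ld_zpow D (hv0 l) _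
    rw [h1, ← h2, hBN k, zero_div]
  -- algebraic structures
  let _ : Algebra (Cst D) (Alg D T) := (Subfield.inclusion (Cst_le_Alg D T)).toAlgebra
  have hst : IsScalarTower (Cst D) (Alg D T) Ω := IsScalarTower.of_algebraMap_eq fun x => rfl
  have hcz : CharZero (Alg D T) := inferInstance
  have hai : AlgebraicIndependent (Alg D T) z := by
    refine Pool.Agent.Helper65_Leo.algebraicIndependent_of_primitives (k := Cst D)
      (A := Alg D T) (F := Ω) (derA D T hT) (der D T) (fun a => rfl) ?_ z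
      (fun l => ⟨der D T (v l) / v l, (Alg D T).div_mem (der_Alg D T hT (hvA l)) (hvA l)⟩) ?_ ?_
    · intro x hx
      have h1 : D x = 0 := by
        rw [der_apply] at hx
        exact (mul_eq_zero.1 hx).resolve_left (inv_ne_zero hT)
      exact ⟨⟨x, h1⟩, rfl⟩
    · intro l
      show der D T (z l) = der D T (v l) / v l
      rw [der_apply, der_apply, hDz, mul_div_assoc]
    · rintro c ⟨a, ha⟩
      have h1 : D ((a : Alg D T) : Ω) = ∑ l, (c l : Ω) * (D (v l) / v l) := by
        have h2 : ((a : Alg D T) : Ω) = ∑ l, (c l : Ω) * z l := ha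
        rw [h2, map_sum]
        refine Finset.sum_congr rfl fun l _ => ?_
        have h3 : D (c l : Ω) = 0 := (c l).2
        rw [Derivation.leibniz, h3, smul_zero, add_zero, smul_eq_mul, hDz]
      have h2 := osc Ω D T hT (Fin q) v (fun l => (c l : Ω)) (a : Ω) (fun l => (c l).2) hv0
        (fun l => mem_Alg.1 (hvA l)) (mem_Alg.1 a.2) hind h1.symm
      funext l
      exact Subtype.ext (congrFun h2 l)
  -- the determinant
  have hdp := dpl Ω (Alg D T) q z hai ι
    (fun i j => ⟨y (e i j) - ∑ l, (N (e i j) l : Ω) * z l, Cst_le_Alg D T (hκ (e i j))⟩)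
    (fun i j l => N (e i j) l) (by
      rw [← hdet]
      congr 1
      ext i j
      show (y (e i j) - ∑ l, (N (e i j) l : Ω) * z l) + ∑ l, (N (e i j) l : Ω) * z l = y (e i j)
      ring) (fun l => ∑ k, (B l k : ℝ) * lam k)
  rw [← hdp]
  congr 1
  ext i j
  show lam (e i j) = ∑ l, (N (e i j) l : ℝ) * ∑ k, (B l k : ℝ) * lam k
  set k₀ := e i j with hk₀
  have h1 := hlam (fun k => (if k = k₀ then 1 else 0) - ∑ l, N k₀ l * B l k) (by
    have h2 : ∏ k, u k ^ ((if k = k₀ then (1:ℤ) else 0) - ∑ l, N k₀ l * B l k)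
        = u k₀ / ∏ l, v l ^ N k₀ l := by
      have h3 : ∀ k, u k ^ ((if k = k₀ then (1:ℤ) else 0) - ∑ l, N k₀ l * B l k)
          = u k ^ (if k = k₀ then (1:ℤ) else 0) / ∏ l, (u k ^ B l k) ^ N k₀ l := by
        intro k
        rw [zpow_sub₀ (hu0 k), zpow_sum' (hu0 k)]
        congr 1
        refine Finset.prod_congr rfl fun l _ => ?_
        rw [← zpow_mul, mul_comm]
      rw [Finset.prod_congr rfl fun k _ => h3 k, Finset.prod_div_distrib]
      congr 1
      · rw [Finset.prod_eq_single k₀]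
        · simp
        · intro k _ hk
          simp [hk]
        · intro h; exact absurd (Finset.mem_univ _) h
      · rw [Finset.prod_comm]
        refine Finset.prod_congr rfl fun l _ => ?_
        rw [hv, Finset.prod_zpow]
    rw [h2]
    exact hBN k₀)
  have h4 : ∑ k, (((if k = k₀ then (1:ℤ) else 0) - ∑ l, N k₀ l * B l k : ℤ) : ℝ) * lam k
      = lam k₀ - ∑ l, (N k₀ l : ℝ) * ∑ k, (B l k : ℝ) * lam k := by
    have h5 : ∀ k, (((if k = k₀ then (1:ℤ) else 0) - ∑ l, N k₀ l * B l k : ℤ) : ℝ) * lam k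
        = (if k = k₀ then lam k else 0) - ∑ l, (N k₀ l : ℝ) * ((B l k : ℝ) * lam k) := by
      intro k
      push_cast
      rw [sub_mul, Finset.sum_mul]
      congr 1
      · split_ifs <;> simp
      · refine Finset.sum_congr rfl fun l _ => ?_
        ring
    rw [Finset.sum_congr rfl fun k _ => h5 k, Finset.sum_sub_distrib, Finset.sum_comm]
    congr 1
    · simp
    · refine Finset.sum_congr rfl fun l _ => ?_
      rw [Finset.mul_sum]
  rw [h4] at h1
  linarith

end Pool.Agent.LUB.H90
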